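import Mathlib
import Pool.Agent.Helper65.Inj.JDefs

/-!
MP_25cd9d_co, row JWR: no return of the walk.
-/

namespace Pool.Agent.Helper51.Inj

open Classical Pool.Agent.Helper65.Inj Pool.Agent.Helper65.Inj.Cub

set_option linter.unusedSectionVars false
set_option linter.unusedVariables false

variable {A B : Type} [Fintype A] [Fintype B] {H : Cub A B}

theorem jwr_adj_symm {J : Finset A} {u v : A} (h : H.Adj J u v) : H.Adj J v u := by
  obtain ⟨b, hb⟩ := h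
  exact ⟨b, hb.symm⟩

theorem jwr_rc_symm {J : Finset A} {u v : A} (h : H.Rc J u v) : H.Rc J v u := by
  unfold Rc at *
  induction h with
  | refl => exact Relation.ReflTransGen.refl
  | tail _ hbc ih => exact Relation.ReflTransGen.head (jwr_adj_symm hbc) ih

theorem jwr_rc_trans {J : Finset A} {u v w : A} (h : H.Rc J u v) (h' : H.Rc J v w) :
    H.Rc J u w := by
  unfold Rc at *
  exact Relation.ReflTransGen.trans h h'

theorem jwr_lp_symm {j k : A} (h : H.LP j k) : H.LP k j := fun D hD => h D ⟨hD.2, hD.1⟩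

/-- a private block of an end is one of the two private blocks: reorder -/
theorem jwr_lf {J : Finset A} {a : A} {D : B} (h : H.IsLf J a) (hD : H.P J D a) :
    ∃ G F p, Lf H J a D G F p := by
  obtain ⟨b, D', F, p, hl⟩ := h
  rcases hl.all hD.1 with rfl | rfl | rfl
  · exact ⟨D', F, p, hl⟩
  · exfalso
    exact hl.hD.1 (hD.2.2 p hl.hD.2.2.1 hl.hD.2.2.2.2.1).symm
  · exact ⟨D', b, p, hl.symm⟩

/-- a private block is the first or the last one -/
theorem jwr_priv {J : Finset A} {a p : A} {D G F b : B} (h : Lf H J a D G F p)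
    (hb : H.P J b a) : b = D ∨ b = F := by
  rcases h.all hb.1 with rfl | rfl | rfl
  · exact Or.inl rfl
  · exfalso
    exact h.hD.1 (hb.2.2 p h.hD.2.2.1 h.hD.2.2.2.2.1).symm
  · exact Or.inr rfl

/-- a common block of two ends is the pair block of both -/
theorem jwr_common {J : Finset A} {a a' p p' : A} {D G F D' G' F' X : B}
    (h : Lf H J a D G F p) (h' : Lf H J a' D' G' F' p') (hne : a ≠ a')
    (h1 : a ∈ H.pt X) (h2 : a' ∈ H.pt X) : X = G ∧ p = a' := by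
  have hJ : a' ∈ J := h'.hb.2.1
  have hXG : X = G := by
    rcases h.all h1 with rfl | rfl | rfl
    · exact absurd (h.hb.2.2 a' h2 hJ) hne.symm
    · rfl
    · exact absurd (h.hF.2.2 a' h2 hJ) hne.symm
  refine ⟨hXG, ?_⟩
  subst hXG
  rcases h.hD.2.2.2.2.2 a' h2 hJ with h3 | h3
  · exact absurd h3 hne.symm
  · exact h3.symm

/-- the core: one index `i < n`, with `j = e1`, `k = e2` (up to the swap) -/
theorem jwr_core (h1 : ST_W1) (h2 : ST_W2) (h4 : ST_W4) (h5 : ST_W5)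
    {J : Finset A} (hO : H.Opt J) {w x y e1 e2 : A} {T T1 D1 D2 b c : B}
    (hw : w ∉ J) (hwT : w ∈ H.pt T1) (hw1 : w ∈ H.pt D1) (hw2 : w ∈ H.pt D2) (hD12 : D1 ≠ D2)
    (hP1 : H.P J D1 e1) (hP2 : H.P J D2 e2) (hl1 : H.IsLf J e1) (hl2 : H.IsLf J e2)
    (hne : e1 ≠ e2) (hrc : H.Rc J e1 e2) (hPT : H.P J T1 y) (hnt : H.nt J y)
    (hy : ¬ H.Rc J y e1) (hx : XD H J x T b c e1 e2) (hv : H.Hv J x) (hxw : w ≠ x)
    (htwo : H.Two J y ∨
      (H.LP e1 e2 ∧ ∀ e1' e2' D1' D2' G1 F1 G2 F2 p1 p2, e1' ≠ e2' → H.LP e1' e2' →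
        w ∈ H.pt D1' → w ∈ H.pt D2' → ¬ H.Rc J y e1' → H.Rc J e1' e2' → 
        (e1' = e1 ∨ e1' = e2) →
        Lf H J e1' D1' G1 F1 p1 → Lf H J e2' D2' G2 F2 p2 → XD H J x T D1' F2 e1' e2' →
        False)) : False := by
  obtain ⟨G1, F1, p1, hL1⟩ := jwr_lf hl1 hP1
  obtain ⟨G2, F2, p2, hL2⟩ := jwr_lf hl2 hP2
  have hy2 : ¬ H.Rc J y e2 := fun h => hy (jwr_rc_trans h (jwr_rc_symm hrc))
  have hye1 : y ≠ e1 := by rintro rfl; exact hy Relation.ReflTransGen.refl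
  have hye2 : y ≠ e2 := by rintro rfl; exact hy2 Relation.ReflTransGen.refl
  have hrc' := jwr_rc_symm hrc
  rcases jwr_priv hL1 hx.hj with hb | hb <;> rcases jwr_priv hL2 hx.hk with hc | hc
  · -- both D
    subst hb; subst hc
    exact hD12 (hv.2 w hw hxw b c hx.vb hx.vc hw1 hw2)
  · -- b = D1, c = F2
    subst hb; subst hc
    rcases htwo with ht | ⟨hLP, ht⟩
    · by_cases hLP : H.LP e1 e2
      · exact h2 A B H J w x y e1 e2 p1 p2 T T1 b D2 G1 G2 F1 c hO hw hwT hw1 hw2 hPT ht hy hrc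
          hne hLP hL1 hL2 hx
      · unfold LP at hLP
        push Not at hLP
        obtain ⟨X, hX1, hX2⟩ := hLP
        obtain ⟨rfl, rfl⟩ := jwr_common hL1 hL2 hne hX1 hX2
        obtain ⟨rfl, rfl⟩ := jwr_common hL2 hL1 hne.symm hX2 hX1
        exact h5 A B H J w x y _ _ T T1 b D2 X F1 c hO hw hwT hw1 hw2 hPT ht hy hL1 hL2 hx
    · exact ht e1 e2 b D2 G1 F1 G2 c p1 p2 hne hLP hw1 hw2 hy hrc (Or.inl rfl) hL1 hL2 hx
  · -- b = F1, c = D2
    subst hb; subst hc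
    rcases htwo with ht | ⟨hLP, ht⟩
    · by_cases hLP : H.LP e1 e2
      · exact h2 A B H J w x y e2 e1 p2 p1 T T1 c D1 G2 G1 F2 b hO hw hwT hw2 hw1 hPT ht hy2 hrc'
          hne.symm (jwr_lp_symm hLP) hL2 hL1 hx.symm
      · unfold LP at hLP
        push Not at hLP
        obtain ⟨X, hX1, hX2⟩ := hLP
        obtain ⟨rfl, rfl⟩ := jwr_common hL1 hL2 hne hX1 hX2
        obtain ⟨rfl, rfl⟩ := jwr_common hL2 hL1 hne.symm hX2 hX1
        exact h5 A B H J w x y _ _ T T1 c D1 X F2 b hO hw hwT hw2 hw1 hPT ht hy2 hL2 hL1 hx.symm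
    · exact ht e2 e1 c D1 G2 F2 G1 b p2 p1 hne.symm (jwr_lp_symm hLP) hw2 hw1 hy2 hrc'
        (Or.inr rfl) hL2 hL1 hx.symm
  · -- both F
    subst hb; subst hc
    by_cases hLP : H.LP e1 e2
    · exact h1 A B H J w x y e1 e2 p1 p2 T T1 D1 D2 G1 G2 b c hO hw hwT hw1 hw2 hPT hnt hye1 hye2
        hne hLP hL1 hL2 hx
    · rcases htwo with ht | ⟨hLP', _⟩
      · unfold LP at hLP
        push Not at hLP
        obtain ⟨X, hX1, hX2⟩ := hLP
        obtain ⟨rfl, rfl⟩ := jwr_common hL1 hL2 hne hX1 hX2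
        obtain ⟨rfl, rfl⟩ := jwr_common hL2 hL1 hne.symm hX2 hX1
        exact h4 A B H J w x y _ _ T T1 D1 D2 X b c hO hw hwT hw1 hw2 hPT ht hy hL1 hL2 hx
      · exact hLP hLP'

/-- the same with the extra hypothesis on the tokens -/
theorem jwr_main (hU1 : ST_U1) (hE3 : ST_E3) (hOR : ST_OR) (h1 : ST_W1) (h2 : ST_W2) (h3 : ST_W3)
    (h4 : ST_W4) (h5 : ST_W5) {J : Finset A} {n : ℕ}
    {w e1 e2 y : ℕ → A} {T D1 D2 : ℕ → B} {x : A} {b c : B} {j k : A}
    (h : H.WS J n w e1 e2 y T D1 D2 x b c j k) (hTD : ∀ i < n, T i ≠ D1 (i + 1)) :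
    ∀ i ≤ n, ¬ H.Rc J (e1 i) j := by
  intro i hi hij
  have hO := h.hJ.1
  have hx := h.hx
  have hjk : H.Rc J j k := hOR A B H J j k hO hx.hj.2.1 (fun s hs => hx.opp hO hs)
  have hne := hx.ne hO
  have hlj : H.IsLf J j := by
    obtain ⟨D, F, p, hl⟩ := hx.lf hO
    exact ⟨b, D, F, p, hl⟩
  have hlk : H.IsLf J k := by
    obtain ⟨D, F, p, hl⟩ := hx.symm.lf hO
    exact ⟨c, D, F, p, hl⟩
  have hik := jwr_rc_trans hij hjk
  -- {j, k} = {e1 i, e2 i}
  have hpair : (j = e1 i ∧ k = e2 i) ∨ (j = e2 i ∧ k = e1 i) := by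
    by_cases hj : e1 i = j
    · left
      refine ⟨hj.symm, ?_⟩
      have hk : e1 i ≠ k := by rw [hj]; exact hne
      exact (hE3 A B H J (e1 i) (e2 i) k hO (h.lf1 i hi) (h.lf2 i hi) hlk (h.rc i hi) hik
        (h.ne i hi) hk).symm
    · right
      have hj2 : e2 i = j := hE3 A B H J (e1 i) (e2 i) j hO (h.lf1 i hi) (h.lf2 i hi) hlj
        (h.rc i hi) hij (h.ne i hi) hj
      refine ⟨hj2.symm, ?_⟩
      by_contra hk
      have hk2 : e2 i = k := hE3 A B H J (e1 i) (e2 i) k hO (h.lf1 i hi) (h.lf2 i hi) hlk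
        (h.rc i hi) hik (h.ne i hi) (fun h' => hk h'.symm)
      exact hne (hj2.symm.trans hk2)
  rcases Nat.lt_or_ge i n with hin | hin
  · -- i < n
    have hPT := h.hT i hin
    have hy0 := h.yrc i hin
    have hwx : w i ≠ x := by
      intro hwx
      have hxT : w i ∈ H.pt (T n) := by rw [hwx]; exact hx.vT
      rcases bl_cases (h.wT i hi) (h.wD1 i hi) (h.wD2 i hi) (h.TD1 i hi) (h.TD2 i hi)
        (h.D12 i hi) hxT with h' | h' | h'
      · exact hx.hT.not_P (h' ▸ hPT)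
      · exact hx.hT.not_P (h' ▸ h.hD1 i hi)
      · exact hx.hT.not_P (h' ▸ h.hD2 i hi)
    have hy : ¬ H.Rc J (y i) (e1 i) := by
      intro hy
      exact h.dis i hi (i + 1) hin (by omega) (jwr_rc_trans (jwr_rc_symm hy) hy0)
    have hnt : H.nt J (y i) := by
      rcases h.ytwo i hin with ⟨Y1, Y2, y1, y2, _, hQ, _⟩ | ⟨_, hye, ⟨D, hQ⟩, _⟩
      · exact hQ.nt hO.1.2
      · rw [hye]; exact hQ.nt hO.1.2
    have htwo : H.Two J (y i) ∨
      (H.LP (e1 i) (e2 i) ∧ ∀ e1' e2' D1' D2' G1 F1 G2 F2 p1 p2, e1' ≠ e2' → H.LP e1' e2' →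
        w i ∈ H.pt D1' → w i ∈ H.pt D2' → ¬ H.Rc J (y i) e1' → H.Rc J e1' e2' →
        (e1' = e1 i ∨ e1' = e2 i) →
        Lf H J e1' D1' G1 F1 p1 → Lf H J e2' D2' G2 F2 p2 → XD H J x (T n) D1' F2 e1' e2' →
        False) := by
      rcases h.ytwo i hin with hT2 | ⟨hLP, hye, ⟨Dy, hQ⟩, hlt, heq⟩
      · exact Or.inl hT2
      · right
        refine ⟨hLP, ?_⟩
        intro e1' e2' D1' D2' G1 F1 G2 F2 p1 p2 hne' hLP' hw1 hw2 hy' hrc' hor hL1 hL2 hx'
        rcases Nat.lt_or_ge (i + 1) n with hin1 | hin1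
        · have hi1 : i + 1 ≤ n := by omega
          have hi2 : i + 2 ≤ n := by omega
          have hyy : H.Rc J (y (i + 1)) (e1 (i + 2)) := h.yrc (i + 1) hin1
          have hL : Lf H J (y i) (T i) Dy (D1 (i + 1)) (e2 (i + 1)) := by
            refine ⟨hPT, ?_, ?_, hTD i hin⟩
            · rw [hye]; exact h.hD1 (i + 1) hi1
            · rw [hye]; exact hQ
          have hr1 : H.Rc J (e1 i) e1' := by
            rcases hor with rfl | rfl
            · exact Relation.ReflTransGen.refl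
            · exact h.rc i hi
          have hy2e : ¬ H.Rc J (y (i + 1)) e1' := by
            intro h'
            exact h.dis i hi (i + 2) hi2 (by omega)
              (jwr_rc_trans hr1 (jwr_rc_trans (jwr_rc_symm h') hyy))
          have hy2y : ¬ H.Rc J (y (i + 1)) (y i) := by
            intro h'
            exact h.dis (i + 1) hi1 (i + 2) hi2 (by omega)
              (jwr_rc_trans (jwr_rc_symm hy0) (jwr_rc_trans (jwr_rc_symm h') hyy))
          exact h3 A B H J (w i) x (y i) e1' e2' p1 p2 (w (i + 1)) (e2 (i + 1)) (y (i + 1))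
            (T n) (T i) D1' D2' G1 G2 F1 F2 (D1 (i + 1)) (D2 (i + 1)) (T (i + 1)) Dy
            hO (h.wJ i hi) (h.wT i hi) hw1 hw2 hPT (h.wJ (i + 1) hi1) (h.wD1 (i + 1) hi1)
            (h.wD2 (i + 1) hi1) (h.wT (i + 1) hi1) (h.hD2 (i + 1) hi1) (h.hT (i + 1) hin1)
            hL (hlt hin1) (h.TD2 (i + 1) hi1) (h.TD1 (i + 1) hi1) hy' hy2e hy2y hrc' hne' hLP'
            hL1 hL2 hx'
        · have : i + 1 = n := by omega
          exact (heq this).2 hij
    rcases hpair with ⟨rfl, rfl⟩ | ⟨rfl, rfl⟩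
    · exact jwr_core h1 h2 h4 h5 hO (h.wJ i hi) (h.wT i hi) (h.wD1 i hi) (h.wD2 i hi)
        (h.D12 i hi) (h.hD1 i hi) (h.hD2 i hi) (h.lf1 i hi) (h.lf2 i hi) (h.ne i hi) (h.rc i hi)
        hPT hnt hy hx h.hv hwx htwo
    · exact jwr_core h1 h2 h4 h5 hO (h.wJ i hi) (h.wT i hi) (h.wD1 i hi) (h.wD2 i hi)
        (h.D12 i hi) (h.hD1 i hi) (h.hD2 i hi) (h.lf1 i hi) (h.lf2 i hi) (h.ne i hi) (h.rc i hi)
        hPT hnt hy hx.symm h.hv hwx htwo
  · -- i = n
    have hin' : i = n := by omega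
    subst hin'
    have hwn : XD H J (w i) (T i) (D1 i) (D2 i) (e1 i) (e2 i) :=
      ⟨h.wT i hi, h.wD1 i hi, h.wD2 i hi, h.D12 i hi, h.hTn, h.hD1 i hi, h.hD2 i hi⟩
    rcases hpair with ⟨rfl, rfl⟩ | ⟨rfl, rfl⟩
    · have := hU1 A B H J x (w i) (e1 i) (e2 i) (T i) b c (T i) (D1 i) (D2 i) hO hx hwn h.xw h.hv
      rcases h.lgo with h' | h'
      · exact this h'
      · exact this h'
    · have := hU1 A B H J x (w i) (e1 i) (e2 i) (T i) c b (T i) (D1 i) (D2 i) hO hx.symm hwn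
        h.xw h.hv
      rcases h.lgo with h' | h'
      · exact this (jwr_lp_symm h')
      · exact this h'

/-- row JWR -/
theorem st_WR (hU1 : ST_U1) (hE3 : ST_E3) (hOR : ST_OR) (h1 : ST_W1) (h2 : ST_W2) (h3 : ST_W3)
    (h4 : ST_W4) (h5 : ST_W5) : ST_WR :=
  fun A B _ _ H J n w e1 e2 y T D1 D2 x b c j k h =>
    jwr_main hU1 hE3 hOR h1 h2 h3 h4 h5 h h.TD

end Pool.Agent.Helper51.Inj
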