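import Mathlib
import Pool.Agent.Helper65.Inj.Defs

/-!
R2: the class of structures is closed under the contraction of a diamond.
-/

set_option autoImplicit false

namespace Pool.Agent.Helper51.Inj

open Classical Pool.Agent.Helper65.Inj

variable {A B : Type}

theorem tri {α : Type} {a b c : α} (h : ({a, b, c} : Finset α).card = 3) : a ≠ b ∧ a ≠ c ∧ b ≠ c := by
  refine ⟨?_, ?_, ?_⟩
  · rintro rfl
    have : ({a, a, c} : Finset α).card ≤ 2 := by
      rw [Finset.insert_eq_of_mem (Finset.mem_insert_self _ _)]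
      exact Finset.card_le_two
    omega
  · rintro rfl
    have : ({a, b, a} : Finset α).card ≤ 2 := by
      rw [Finset.insert_eq_of_mem (by simp)]
      exact Finset.card_le_two
    omega
  · rintro rfl
    have : ({a, b, b} : Finset α).card ≤ 2 := by
      rw [Finset.pair_eq_singleton]
      exact Finset.card_le_two
    omega

theorem mem_pt {S : RS A B} {v : A} {b : B} : v ∈ S.pt b ↔ v ∈ S.R ∧ b ∈ S.bl v := by
  simp [RS.pt]

theorem adj_symm {S : RS A B} {u v : A} (h : S.adj u v) : S.adj v u := by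
  obtain ⟨h1, b, h2, h3, h4⟩ := h
  exact ⟨h1.symm, b, h3, h2, fun h5 => h4 ⟨h5.2, h5.1⟩⟩

theorem adj_comm' {S : RS A B} {u v : A} : S.adj u v ↔ S.adj v u := ⟨adj_symm, adj_symm⟩

theorem adj_R {S : RS A B} {u v : A} (h : S.adj u v) : u ∈ S.R ∧ v ∈ S.R := by
  obtain ⟨h1, b, h2, h3, h4⟩ := h
  exact ⟨(mem_pt.1 h2).1, (mem_pt.1 h3).1⟩

/-- the facts about a diamond -/
structure Fct (S : RS A B) (x y z o : A) (T b1 b2 be be' ga ga' de : B) : Prop where
  xR : x ∈ S.R
  yR : y ∈ S.R
  zR : z ∈ S.R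
  hxm : ∀ b, x ∈ S.pt b ↔ b = T ∨ b = b1 ∨ b = b2
  hym : ∀ b, y ∈ S.pt b ↔ b = T ∨ b = be ∨ b = be'
  hzm : ∀ b, z ∈ S.pt b ↔ b = T ∨ b = ga ∨ b = ga'
  hom : ∀ b, o ∈ S.pt b ↔ b = be ∨ b = ga ∨ b = de
  nT1 : b1 ≠ T
  nT2 : b2 ≠ T
  n12 : b1 ≠ b2
  nTd : de ≠ T
  n1d : de ≠ b1
  n2d : de ≠ b2
  tT : S.Tok T
  t1 : ¬ S.Tok b1
  t2 : ¬ S.Tok b2
  tbe : ¬ S.Tok be
  tbe' : ¬ S.Tok be'
  tga : ¬ S.Tok ga
  tga' : ¬ S.Tok ga'
  emp : ∀ b, (b = T ∨ b = be ∨ b = be' ∨ b = ga ∨ b = ga') → b ≠ b1 ∧ b ≠ b2 ∧ b ≠ de ∧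
    ∀ v ∈ S.pt b, v = x ∨ v = y ∨ v = z ∨ v = o

variable {S : RS A B} {x y z o : A} {T b1 b2 be be' ga ga' de : B}

theorem fct (h : S.Cls) (d : S.Dia x y z o T b1 b2 be be' ga ga' de) :
    Fct S x y z o T b1 b2 be be' ga ga' de := by
  have hxT : x ∈ S.pt T := by rw [d.hT]; simp
  have hyT : y ∈ S.pt T := by rw [d.hT]; simp
  have hzT : z ∈ S.pt T := by rw [d.hT]; simp
  have xR := (mem_pt.1 hxT).1
  have yR := (mem_pt.1 hyT).1
  have zR := (mem_pt.1 hzT).1
  have hxm : ∀ b, x ∈ S.pt b ↔ b = T ∨ b = b1 ∨ b = b2 := by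
    intro b; rw [mem_pt, d.hx]; simp [xR]
  have hym : ∀ b, y ∈ S.pt b ↔ b = T ∨ b = be ∨ b = be' := by
    intro b; rw [mem_pt, d.hy]; simp [yR]
  have hzm : ∀ b, z ∈ S.pt b ↔ b = T ∨ b = ga ∨ b = ga' := by
    intro b; rw [mem_pt, d.hz]; simp [zR]
  have hom : ∀ b, o ∈ S.pt b ↔ b = be ∨ b = ga ∨ b = de := by
    intro b; rw [mem_pt, d.ho]; simp [d.oR]
  have c1 := h.bl3 x xR
  rw [d.hx] at c1
  obtain ⟨e1, e2, e3⟩ := tri c1
  have tT : S.Tok T := by
    show (S.pt T).card = 3
    rw [d.hT, Finset.card_insert_of_notMem, Finset.card_insert_of_notMem, Finset.card_singleton]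
    · simpa using d.yz
    · simpa using ⟨d.xy, d.xz⟩
  have h1 : x ∈ S.pt b1 := (hxm b1).2 (Or.inr (Or.inl rfl))
  have h2 : x ∈ S.pt b2 := (hxm b2).2 (Or.inr (Or.inr rfl))
  have tk : ∀ b, b = be ∨ b = be' ∨ b = ga ∨ b = ga' → (S.pt b).card ≤ 2 := by
    rintro b (rfl | rfl | rfl | rfl)
    · rw [d.hbe]; exact Finset.card_le_two
    · rw [d.hbe']; simp
    · rw [d.hga]; exact Finset.card_le_two
    · rw [d.hga']; simp
  have tk' : ∀ b, b = be ∨ b = be' ∨ b = ga ∨ b = ga' → ¬ S.Tok b := by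
    intro b hb hb'
    have := tk b hb
    have h3 : (S.pt b).card = 3 := hb'
    omega
  have hod : o ∈ S.pt de := (hom de).2 (Or.inr (Or.inr rfl))
  have c3 := h.bl3 o d.oR
  rw [d.ho] at c3
  obtain ⟨f1, f2, f3⟩ := tri c3
  refine ⟨xR, yR, zR, hxm, hym, hzm, hom, e1.symm, e2.symm, e3, ?_, ?_, ?_, tT, ?_, ?_, tk' _ (by simp),
    tk' _ (by simp), tk' _ (by simp), tk' _ (by simp), ?_⟩
  · rintro rfl; exact d.hdx hxT
  · rintro rfl; exact d.hdx h1
  · rintro rfl; exact d.hdx h2
  · intro ht; exact e1 (h.tokd x T b1 hxT h1 tT ht)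
  · intro ht; exact e2 (h.tokd x T b2 hxT h2 tT ht)
  · rintro b (rfl | rfl | rfl | rfl | rfl)
    · refine ⟨e1, e2, ?_, ?_⟩
      · rintro rfl; exact d.hdx hxT
      · intro v hv; rw [d.hT] at hv; simp only [Finset.mem_insert, Finset.mem_singleton] at hv; tauto
    · refine ⟨?_, ?_, f2, ?_⟩
      · rintro rfl; rw [d.hbe] at h1; simp [d.xy, d.xo] at h1
      · rintro rfl; rw [d.hbe] at h2; simp [d.xy, d.xo] at h2
      · intro v hv; rw [d.hbe] at hv; simp only [Finset.mem_insert, Finset.mem_singleton] at hv; tauto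
    · refine ⟨?_, ?_, ?_, ?_⟩
      · rintro rfl; rw [d.hbe'] at h1; simp [d.xy] at h1
      · rintro rfl; rw [d.hbe'] at h2; simp [d.xy] at h2
      · rintro rfl; rw [d.hbe'] at hod; simp at hod; exact d.yo hod.symm
      · intro v hv; rw [d.hbe'] at hv; simp only [Finset.mem_singleton] at hv; tauto
    · refine ⟨?_, ?_, f3, ?_⟩
      · rintro rfl; rw [d.hga] at h1; simp [d.xz, d.xo] at h1
      · rintro rfl; rw [d.hga] at h2; simp [d.xz, d.xo] at h2
      · intro v hv; rw [d.hga] at hv; simp only [Finset.mem_insert, Finset.mem_singleton] at hv; tauto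
    · refine ⟨?_, ?_, ?_, ?_⟩
      · rintro rfl; rw [d.hga'] at h1; simp [d.xz] at h1
      · rintro rfl; rw [d.hga'] at h2; simp [d.xz] at h2
      · rintro rfl; rw [d.hga'] at hod; simp at hod; exact d.zo hod.symm
      · intro v hv; rw [d.hga'] at hv; simp only [Finset.mem_singleton] at hv; tauto

theorem mem' (d : S.Dia x y z o T b1 b2 be be' ga ga' de) (f : Fct S x y z o T b1 b2 be be' ga ga' de)
    {v : A} {b : B} : v ∈ (S.con x y z o b1 b2 de).pt b ↔
      (v = x ∧ (b = b1 ∨ b = b2 ∨ b = de)) ∨ (v ≠ x ∧ v ≠ y ∧ v ≠ z ∧ v ≠ o ∧ v ∈ S.pt b) := by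
  rw [mem_pt, mem_pt]
  show v ∈ S.R \ {y, z, o} ∧ b ∈ (if v = x then ({b1, b2, de} : Finset B) else S.bl v) ↔ _
  rw [Finset.mem_sdiff]
  simp only [Finset.mem_insert, Finset.mem_singleton, not_or]
  by_cases hv : v = x
  · subst hv
    simp only [if_pos, Finset.mem_insert, Finset.mem_singleton]
    have := f.xR
    have := d.xy
    have := d.xz
    have := d.xo
    tauto
  · rw [if_neg hv]
    tauto

theorem pt_emp (d : S.Dia x y z o T b1 b2 be be' ga ga' de) (f : Fct S x y z o T b1 b2 be be' ga ga' de)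
    {b : B} (hb : b = T ∨ b = be ∨ b = be' ∨ b = ga ∨ b = ga') :
    (S.con x y z o b1 b2 de).pt b = ∅ := by
  rw [Finset.eq_empty_iff_forall_notMem]
  intro v hv
  obtain ⟨g1, g2, g3, g4⟩ := f.emp b hb
  rcases (mem' d f).1 hv with h | h
  · tauto
  · have := g4 v h.2.2.2.2
    tauto

theorem pt_de (d : S.Dia x y z o T b1 b2 be be' ga ga' de) (f : Fct S x y z o T b1 b2 be be' ga ga' de) :
    (S.con x y z o b1 b2 de).pt de = insert x ((S.pt de).erase o) := by
  ext v
  rw [mem' d f, Finset.mem_insert, Finset.mem_erase]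
  have h1 : y ∉ S.pt de := by
    rw [f.hym]
    rintro (h | h | h)
    · exact f.nTd h
    · exact (f.emp be (by simp)).2.2.1 h.symm
    · exact (f.emp be' (by simp)).2.2.1 h.symm
  have h2 : z ∉ S.pt de := by
    rw [f.hzm]
    rintro (h | h | h)
    · exact f.nTd h
    · exact (f.emp ga (by simp)).2.2.1 h.symm
    · exact (f.emp ga' (by simp)).2.2.1 h.symm
  constructor
  · rintro (h | h)
    · exact Or.inl h.1
    · exact Or.inr ⟨h.2.2.2.1, h.2.2.2.2⟩
  · rintro (h | h)
    · exact Or.inl ⟨h, Or.inr (Or.inr rfl)⟩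
    · refine Or.inr ⟨?_, ?_, ?_, h.1, h.2⟩
      · rintro rfl; exact d.hdx h.2
      · rintro rfl; exact h1 h.2
      · rintro rfl; exact h2 h.2

theorem pt_ne (d : S.Dia x y z o T b1 b2 be be' ga ga' de) (f : Fct S x y z o T b1 b2 be be' ga ga' de)
    {b : B} (hb : ¬ (b = T ∨ b = be ∨ b = be' ∨ b = ga ∨ b = ga')) (hd : b ≠ de) :
    (S.con x y z o b1 b2 de).pt b = S.pt b := by
  ext v
  rw [mem' d f]
  have h1 := f.hxm b
  have h2 := f.hym b
  have h3 := f.hzm b
  have h4 := f.hom b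
  constructor
  · rintro (h | h)
    · rw [h.1, h1]; tauto
    · exact h.2.2.2.2
  · intro h
    by_cases hx : v = x
    · subst hx; left; refine ⟨rfl, ?_⟩; tauto
    · refine Or.inr ⟨hx, ?_, ?_, ?_, h⟩
      · rintro rfl; tauto
      · rintro rfl; tauto
      · rintro rfl; tauto

theorem card_de (d : S.Dia x y z o T b1 b2 be be' ga ga' de) (f : Fct S x y z o T b1 b2 be be' ga ga' de) :
    ((S.con x y z o b1 b2 de).pt de).card = (S.pt de).card := by
  have hod : o ∈ S.pt de := (f.hom de).2 (Or.inr (Or.inr rfl))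
  rw [pt_de d f, Finset.card_insert_of_notMem, Finset.card_erase_add_one hod]
  intro h
  exact d.hdx (Finset.mem_of_mem_erase h)

theorem card_le (d : S.Dia x y z o T b1 b2 be be' ga ga' de) (f : Fct S x y z o T b1 b2 be be' ga ga' de)
    (b : B) : ((S.con x y z o b1 b2 de).pt b).card ≤ (S.pt b).card := by
  by_cases h1 : b = T ∨ b = be ∨ b = be' ∨ b = ga ∨ b = ga'
  · rw [pt_emp d f h1]; simp
  · by_cases h2 : b = de
    · subst h2; exact (card_de d f).le
    · rw [pt_ne d f h1 h2]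

theorem tok_iff (d : S.Dia x y z o T b1 b2 be be' ga ga' de) (f : Fct S x y z o T b1 b2 be be' ga ga' de)
    {b : B} : (S.con x y z o b1 b2 de).Tok b ↔ S.Tok b ∧ b ≠ T := by
  by_cases h1 : b = T ∨ b = be ∨ b = be' ∨ b = ga ∨ b = ga'
  · have h2 : ¬ (S.con x y z o b1 b2 de).Tok b := by
      show ¬ (_ = 3)
      rw [pt_emp d f h1]
      simp
    have h3 := f.tbe
    have h4 := f.tbe'
    have h5 := f.tga
    have h6 := f.tga'
    constructor
    · intro h; exact absurd h h2
    · rintro ⟨h, h'⟩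
      rcases h1 with rfl | rfl | rfl | rfl | rfl <;> contradiction
  · by_cases h2 : b = de
    · subst h2
      show (_ = 3) ↔ (_ = 3) ∧ _
      rw [card_de d f]
      have := f.nTd
      tauto
    · show (_ = 3) ↔ (_ = 3) ∧ _
      rw [pt_ne d f h1 h2]
      tauto

theorem mem_D (d : S.Dia x y z o T b1 b2 be be' ga ga' de) {v : A} :
    v ∈ (S.con x y z o b1 b2 de).D ↔ (v ≠ x ∧ v ∈ S.D) ∨ (v = x ∧ o ∈ S.D) := by
  show v ∈ (if o ∈ S.D then insert x S.D else S.D) ↔ _
  have hx := d.hD.1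
  by_cases h1 : o ∈ S.D
  · rw [if_pos h1, Finset.mem_insert]
    constructor
    · rintro (h | h)
      · exact Or.inr ⟨h, h1⟩
      · refine Or.inl ⟨?_, h⟩
        rintro rfl; exact hx h
    · tauto
  · rw [if_neg h1]
    constructor
    · intro h
      refine Or.inl ⟨?_, h⟩
      rintro rfl; exact hx h
    · tauto

theorem mem_R (_d : S.Dia x y z o T b1 b2 be be' ga ga' de) {v : A} :
    v ∈ (S.con x y z o b1 b2 de).R ↔ v ∈ S.R ∧ v ≠ y ∧ v ≠ z ∧ v ≠ o := by
  show v ∈ S.R \ {y, z, o} ↔ _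
  rw [Finset.mem_sdiff]
  simp only [Finset.mem_insert, Finset.mem_singleton, not_or]

/-- adjacency away from `x` -/
theorem adj_ne (d : S.Dia x y z o T b1 b2 be be' ga ga' de) (f : Fct S x y z o T b1 b2 be be' ga ga' de)
    {u v : A} (hu : u ≠ x) (hv : v ≠ x) (hu' : u ∈ (S.con x y z o b1 b2 de).R)
    (hv' : v ∈ (S.con x y z o b1 b2 de).R) :
    (S.con x y z o b1 b2 de).adj u v ↔ S.adj u v := by
  rw [mem_R d] at hu' hv'
  constructor
  · rintro ⟨h1, b, h2, h3, h4⟩
    rw [mem' d f] at h2 h3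
    have h2' : u ∈ S.pt b := by tauto
    have h3' : v ∈ S.pt b := by tauto
    refine ⟨h1, b, h2', h3', ?_⟩
    rintro ⟨⟨h5, h6⟩, h7, h8⟩
    apply h4
    have hb : b ≠ T := by
      rintro rfl
      rw [d.hT] at h2'
      simp only [Finset.mem_insert, Finset.mem_singleton] at h2'
      tauto
    exact ⟨⟨(mem_D d).2 (Or.inl ⟨hu, h5⟩), (tok_iff d f).2 ⟨h6, hb⟩⟩, (mem_D d).2 (Or.inl ⟨hv, h7⟩),
      (tok_iff d f).2 ⟨h6, hb⟩⟩
  · rintro ⟨h1, b, h2, h3, h4⟩
    refine ⟨h1, b, (mem' d f).2 (Or.inr ⟨hu, hu'.2.1, hu'.2.2.1, hu'.2.2.2, h2⟩),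
      (mem' d f).2 (Or.inr ⟨hv, hv'.2.1, hv'.2.2.1, hv'.2.2.2, h3⟩), ?_⟩
    rintro ⟨⟨h5, h6⟩, h7, h8⟩
    apply h4
    have h5' := (mem_D d).1 h5
    have h7' := (mem_D d).1 h7
    have h6' := (tok_iff d f).1 h6
    exact ⟨⟨by tauto, h6'.1⟩, by tauto, h6'.1⟩

/-- adjacency to `x` -/
theorem adj_x (d : S.Dia x y z o T b1 b2 be be' ga ga' de) (f : Fct S x y z o T b1 b2 be be' ga ga' de)
    {v : A} (hv : v ≠ x) (hv' : v ∈ (S.con x y z o b1 b2 de).R) :
    (S.con x y z o b1 b2 de).adj x v ↔ S.adj x v ∨ S.adj o v := by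
  rw [mem_R d] at hv'
  constructor
  · rintro ⟨h1, b, h2, h3, h4⟩
    rw [mem' d f] at h2 h3
    have h3' : v ∈ S.pt b := by tauto
    have h2' : b = b1 ∨ b = b2 ∨ b = de := by tauto
    rcases h2' with rfl | rfl | rfl
    · left
      exact ⟨h1, b, (f.hxm b).2 (by tauto), h3', fun h => f.t1 h.1.2⟩
    · left
      exact ⟨h1, b, (f.hxm b).2 (by tauto), h3', fun h => f.t2 h.1.2⟩
    · right
      refine ⟨hv'.2.2.2.symm, b, (f.hom b).2 (by tauto), h3', ?_⟩
      rintro ⟨⟨h5, h6⟩, h7, h8⟩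
      exact h4 ⟨⟨(mem_D d).2 (Or.inr ⟨rfl, h5⟩), (tok_iff d f).2 ⟨h6, f.nTd⟩⟩,
        (mem_D d).2 (Or.inl ⟨hv, h7⟩), (tok_iff d f).2 ⟨h6, f.nTd⟩⟩
  · rintro (⟨h1, b, h2, h3, h4⟩ | ⟨h1, b, h2, h3, h4⟩)
    · have hb : b ≠ T := by
        rintro rfl
        rw [d.hT] at h3
        simp only [Finset.mem_insert, Finset.mem_singleton] at h3
        tauto
      have h2' := (f.hxm b).1 h2
      refine ⟨h1, b, (mem' d f).2 (Or.inl ⟨rfl, by tauto⟩),
        (mem' d f).2 (Or.inr ⟨hv, hv'.2.1, hv'.2.2.1, hv'.2.2.2, h3⟩), ?_⟩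
      rintro ⟨⟨h5, h6⟩, h7, h8⟩
      have h6' := (tok_iff d f).1 h6
      have := f.t1
      have := f.t2
      rcases h2' with rfl | rfl | rfl <;> tauto
    · have h2' := (f.hom b).1 h2
      have hb : b = de := by
        rcases h2' with rfl | rfl | h
        · rw [d.hbe] at h3
          simp only [Finset.mem_insert, Finset.mem_singleton] at h3
          tauto
        · rw [d.hga] at h3
          simp only [Finset.mem_insert, Finset.mem_singleton] at h3
          tauto
        · exact h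
      subst hb
      refine ⟨hv.symm, b, (mem' d f).2 (Or.inl ⟨rfl, by tauto⟩),
        (mem' d f).2 (Or.inr ⟨hv, hv'.2.1, hv'.2.2.1, hv'.2.2.2, h3⟩), ?_⟩
      rintro ⟨⟨h5, h6⟩, h7, h8⟩
      have h6' := (tok_iff d f).1 h6
      have h5' := (mem_D d).1 h5
      have h7' := (mem_D d).1 h7
      exact h4 ⟨⟨by tauto, h6'.1⟩, by tauto, h6'.1⟩

theorem deg_le (d : S.Dia x y z o T b1 b2 be be' ga ga' de) (f : Fct S x y z o T b1 b2 be be' ga ga' de)
    {v : A} (hv : v ≠ x) (hv' : v ∈ (S.con x y z o b1 b2 de).R) :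
    (S.con x y z o b1 b2 de).deg v ≤ S.deg v := by
  refine Finset.card_le_card_of_injOn (fun w => if w = x then (if S.adj v x then x else o) else w) ?_ ?_
  · intro w hw
    have hw' := Finset.mem_filter.1 (Finset.mem_coe.1 hw)
    refine Finset.mem_coe.2 (Finset.mem_filter.2 ?_)
    by_cases h1 : w = x
    · subst h1
      simp only [if_true]
      have h2 := (adj_x d f hv hv').1 (adj_symm hw'.2)
      by_cases h3 : S.adj v w
      · rw [if_pos h3]; exact ⟨f.xR, h3⟩
      · rw [if_neg h3]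
        refine ⟨d.oR, ?_⟩
        rcases h2 with h2 | h2
        · exact absurd (adj_symm h2) h3
        · exact adj_symm h2
    · simp only [if_neg h1]
      have h2 := (adj_ne d f hv h1 hv' hw'.1).1 hw'.2
      exact ⟨(adj_R h2).2, h2⟩
  · intro w hw w' hw' hww
    have hw1 := (mem_R d).1 (Finset.mem_filter.1 (Finset.mem_coe.1 hw)).1
    have hw2 := (mem_R d).1 (Finset.mem_filter.1 (Finset.mem_coe.1 hw')).1
    simp only at hww
    by_cases h1 : w = x
    · by_cases h2 : w' = x
      · rw [h1, h2]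
      · exfalso
        rw [if_pos h1, if_neg h2] at hww
        split_ifs at hww
        · exact h2 hww.symm
        · exact hw2.2.2.2 hww.symm
    · by_cases h2 : w' = x
      · exfalso
        rw [if_neg h1, if_pos h2] at hww
        split_ifs at hww
        · exact h1 hww
        · exact hw1.2.2.2 hww
      · rw [if_neg h1, if_neg h2] at hww
        exact hww

theorem adj_xy (d : S.Dia x y z o T b1 b2 be be' ga ga' de) (f : Fct S x y z o T b1 b2 be be' ga ga' de) :
    S.adj x y ∧ S.adj x z ∧ S.adj o y ∧ S.adj o z := by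
  refine ⟨⟨d.xy, T, (f.hxm T).2 (by tauto), (f.hym T).2 (by tauto), fun h => d.hD.1 h.1.1⟩,
    ⟨d.xz, T, (f.hxm T).2 (by tauto), (f.hzm T).2 (by tauto), fun h => d.hD.1 h.1.1⟩,
    ⟨d.yo.symm, be, (f.hom be).2 (by tauto), (f.hym be).2 (by tauto), fun h => f.tbe h.1.2⟩,
    ⟨d.zo.symm, ga, (f.hom ga).2 (by tauto), (f.hzm ga).2 (by tauto), fun h => f.tga h.1.2⟩⟩

theorem deg_x (d : S.Dia x y z o T b1 b2 be be' ga ga' de) (f : Fct S x y z o T b1 b2 be be' ga ga' de) :
    (S.con x y z o b1 b2 de).deg x ≤ S.deg o := by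
  obtain ⟨a1, a2, a3, a4⟩ := adj_xy d f
  set N1 := S.R.filter (fun w => S.adj x w) with hN1
  set N2 := S.R.filter (fun w => S.adj o w) with hN2
  have c1 : N1.card = 4 := d.hdeg
  have hp : ({y, z} : Finset A).card = 2 := Finset.card_pair d.yz
  have s1 : ({y, z} : Finset A) ⊆ N1 := by
    intro w hw
    simp only [Finset.mem_insert, Finset.mem_singleton] at hw
    rcases hw with rfl | rfl
    · exact Finset.mem_filter.2 ⟨f.yR, a1⟩
    · exact Finset.mem_filter.2 ⟨f.zR, a2⟩
  have s2 : ({y, z} : Finset A) ⊆ N2 := by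
    intro w hw
    simp only [Finset.mem_insert, Finset.mem_singleton] at hw
    rcases hw with rfl | rfl
    · exact Finset.mem_filter.2 ⟨f.yR, a3⟩
    · exact Finset.mem_filter.2 ⟨f.zR, a4⟩
  have e1 : (N1 \ {y, z}).card + 2 = 4 := by
    have := Finset.card_sdiff_add_card_eq_card s1
    omega
  have e2 : (N2 \ {y, z}).card + 2 = N2.card := by
    have := Finset.card_sdiff_add_card_eq_card s2
    omega
  have key : (S.con x y z o b1 b2 de).deg x ≤ ((N1 \ {y, z}) ∪ (N2 \ {y, z})).card := by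
    apply Finset.card_le_card
    intro w hw
    have hw' := Finset.mem_filter.1 hw
    have hR := (mem_R d).1 hw'.1
    have hwx : w ≠ x := fun h => hw'.2.1 h.symm
    have h1 := (adj_x d f hwx hw'.1).1 hw'.2
    rw [Finset.mem_union, Finset.mem_sdiff, Finset.mem_sdiff]
    simp only [Finset.mem_insert, Finset.mem_singleton, not_or]
    rcases h1 with h1 | h1
    · left
      exact ⟨Finset.mem_filter.2 ⟨hR.1, h1⟩, hR.2.1, hR.2.2.1⟩
    · right
      exact ⟨Finset.mem_filter.2 ⟨hR.1, h1⟩, hR.2.1, hR.2.2.1⟩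
  have u := Finset.card_union_le (N1 \ {y, z}) (N2 \ {y, z})
  have : S.deg o = N2.card := rfl
  omega

theorem r2 : ST_R2 := by
  intro A B S x y z o T b1 b2 be be' ga ga' de h d
  have f := fct h d
  have tokS : ∀ {b}, (S.con x y z o b1 b2 de).Tok b → S.Tok b ∧ b ≠ T := fun hb => (tok_iff d f).1 hb
  have nx : ∀ b, S.Tok b → b ≠ T → x ∉ S.pt b := by
    intro b h1 h2 h3
    rcases (f.hxm b).1 h3 with h4 | h4 | h4
    · exact h2 h4
    · rw [h4] at h1; exact f.t1 h1
    · rw [h4] at h1; exact f.t2 h1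
  have ny : ∀ b, S.Tok b → b ≠ T → y ∉ S.pt b := by
    intro b h1 h2 h3
    rcases (f.hym b).1 h3 with h4 | h4 | h4
    · exact h2 h4
    · rw [h4] at h1; exact f.tbe h1
    · rw [h4] at h1; exact f.tbe' h1
  have nz : ∀ b, S.Tok b → b ≠ T → z ∉ S.pt b := by
    intro b h1 h2 h3
    rcases (f.hzm b).1 h3 with h4 | h4 | h4
    · exact h2 h4
    · rw [h4] at h1; exact f.tga h1
    · rw [h4] at h1; exact f.tga' h1
  have no : ∀ b, S.Tok b → o ∈ S.pt b → b = de := by
    intro b h1 h3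
    rcases (f.hom b).1 h3 with h4 | h4 | h4
    · rw [h4] at h1; exact absurd h1 f.tbe
    · rw [h4] at h1; exact absurd h1 f.tga
    · exact h4
  have hod : o ∈ S.pt de := (f.hom de).2 (by tauto)
  have hxd : x ∈ (S.con x y z o b1 b2 de).pt de := (mem' d f).2 (Or.inl ⟨rfl, by tauto⟩)
  have tob : ∀ b, S.Tok b → b = b1 ∨ b = b2 ∨ b = de → b = de := by
    rintro b h1 (h2 | h2 | h2)
    · rw [h2] at h1; exact absurd h1 f.t1
    · rw [h2] at h1; exact absurd h1 f.t2
    · exact h2
  have und : ∀ b, (S.con x y z o b1 b2 de).Tok b →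
      (∀ v ∈ (S.con x y z o b1 b2 de).pt b, v ∉ (S.con x y z o b1 b2 de).D) → ∀ v ∈ S.pt b, v ∉ S.D := by
    intro b hb hu v hv hD
    obtain ⟨tb, nb⟩ := tokS hb
    by_cases hvo : v = o
    · subst hvo
      have := no b tb hv
      subst this
      exact hu x hxd ((mem_D d).2 (Or.inr ⟨rfl, hD⟩))
    · have hvx : v ≠ x := by rintro rfl; exact nx b tb nb hv
      have hvy : v ≠ y := by rintro rfl; exact ny b tb nb hv
      have hvz : v ≠ z := by rintro rfl; exact nz b tb nb hv
      exact hu v ((mem' d f).2 (Or.inr ⟨hvx, hvy, hvz, hvo, hv⟩)) ((mem_D d).2 (Or.inl ⟨hvx, hD⟩))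
  -- the case of the token `de`
  have degO : (S.con x y z o b1 b2 de).Tok de →
      (∀ v ∈ (S.con x y z o b1 b2 de).pt de, v ∉ (S.con x y z o b1 b2 de).D) → 4 ≤ S.deg o := by
    intro hb hu
    have hU := und de hb hu
    obtain ⟨tb, nb⟩ := tokS hb
    obtain ⟨a1, a2, a3, a4⟩ := adj_xy d f
    have c0 : ((S.pt de).erase o).card = 2 := by
      have := Finset.card_erase_add_one hod
      have h3 : (S.pt de).card = 3 := tb
      omega
    have dj : Disjoint ({y, z} : Finset A) ((S.pt de).erase o) := by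
      rw [Finset.disjoint_left]
      intro v hv hv'
      simp only [Finset.mem_insert, Finset.mem_singleton] at hv
      rcases hv with rfl | rfl
      · exact ny de tb nb (Finset.mem_of_mem_erase hv')
      · exact nz de tb nb (Finset.mem_of_mem_erase hv')
    have c1 : (({y, z} : Finset A) ∪ ((S.pt de).erase o)).card = 4 := by
      rw [Finset.card_union_of_disjoint dj, c0, Finset.card_pair d.yz]
    rw [← c1]
    apply Finset.card_le_card
    intro v hv
    rw [Finset.mem_union] at hv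
    simp only [Finset.mem_insert, Finset.mem_singleton] at hv
    rcases hv with (rfl | rfl) | hv
    · exact Finset.mem_filter.2 ⟨f.yR, a3⟩
    · exact Finset.mem_filter.2 ⟨f.zR, a4⟩
    · rw [Finset.mem_erase] at hv
      exact Finset.mem_filter.2 ⟨(mem_pt.1 hv.2).1, hv.1.symm, de, hod, hv.2, fun h5 => hU o hod h5.1.1⟩
  have inner : (S.con x y z o b1 b2 de).Tok de →
      (∀ v ∈ (S.con x y z o b1 b2 de).pt de, v ∉ (S.con x y z o b1 b2 de).D) →
      ∀ p ∈ (S.con x y z o b1 b2 de).pt de, p ≠ x → ∀ g, g ≠ de → x ∈ (S.con x y z o b1 b2 de).pt g →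
        p ∈ (S.con x y z o b1 b2 de).pt g → ∀ w, (S.con x y z o b1 b2 de).adj p w →
          w ∈ (S.con x y z o b1 b2 de).pt de := by
    intro hb hu p hp hpx g hg hxg hpg w hw
    have hU := und de hb hu
    have hO := degO hb hu
    obtain ⟨tb, nb⟩ := tokS hb
    by_cases hwx : w = x
    · rw [hwx]; exact hxd
    have hp' : p ≠ o ∧ p ∈ S.pt de := by
      rcases (mem' d f).1 hp with h1 | h1
      · exact absurd h1.1 hpx
      · exact ⟨h1.2.2.2.1, h1.2.2.2.2⟩
    have hpR : p ∈ (S.con x y z o b1 b2 de).R := (mem_pt.1 hp).1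
    have hwR : w ∈ (S.con x y z o b1 b2 de).R := (adj_R hw).2
    have hpg' : p ∈ S.pt g := by
      rcases (mem' d f).1 hpg with h1 | h1
      · exact absurd h1.1 hpx
      · exact h1.2.2.2.2
    have hg' : g = b1 ∨ g = b2 := by
      rcases (mem' d f).1 hxg with h1 | h1
      · tauto
      · exact absurd rfl h1.1
    have hxg' : x ∈ S.pt g := by rw [f.hxm]; tauto
    have ng : ¬ S.Tok g := by
      rcases hg' with rfl | rfl
      · exact f.t1
      · exact f.t2
    have apx : S.adj p x := ⟨hpx, g, hpg', hxg', fun h5 => ng h5.1.2⟩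
    have apo : S.adj p o := ⟨hp'.1, de, hp'.2, hod, fun h5 => hU o hod h5.2.1⟩
    obtain ⟨q, hq⟩ : ∃ q, q ∈ ((S.pt de).erase o).erase p := by
      have c1 : ((S.pt de).erase o).card = 2 := by
        have := Finset.card_erase_add_one hod
        have h3 : (S.pt de).card = 3 := tb
        omega
      have c2 : (((S.pt de).erase o).erase p).card = 1 := by
        have := Finset.card_erase_add_one (Finset.mem_erase.2 hp')
        omega
      exact Finset.card_pos.1 (by omega)
    rw [Finset.mem_erase, Finset.mem_erase] at hq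
    have apq : S.adj p q := ⟨hq.1.symm, de, hp'.2, hq.2.2, fun h5 => hU p hp'.2 h5.1.1⟩
    have hqx : q ≠ x := by rintro rfl; exact d.hdx hq.2.2
    have dp : S.deg p ≤ 3 := by
      obtain ⟨b', q1, q2, q3, q4⟩ := h.deg3 o d.oR (by omega)
      have := no b' q2 q1
      subst this
      exact q4 p hp'.2 hp'.1
    have c3 : ({x, o, q} : Finset A).card = 3 := by
      rw [Finset.card_insert_of_notMem, Finset.card_insert_of_notMem, Finset.card_singleton]
      · simpa using hq.2.1.symm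
      · simpa using ⟨d.xo, hqx.symm⟩
    have sub : ({x, o, q} : Finset A) ⊆ S.R.filter (fun w => S.adj p w) := by
      intro v hv
      simp only [Finset.mem_insert, Finset.mem_singleton] at hv
      rcases hv with rfl | rfl | rfl
      · exact Finset.mem_filter.2 ⟨f.xR, apx⟩
      · exact Finset.mem_filter.2 ⟨d.oR, apo⟩
      · exact Finset.mem_filter.2 ⟨(adj_R apq).2, apq⟩
    have eqn : ({x, o, q} : Finset A) = S.R.filter (fun w => S.adj p w) :=
      Finset.eq_of_subset_of_card_le sub (by rw [c3]; exact dp)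
    have apw : S.adj p w := (adj_ne d f hpx hwx hpR hwR).1 hw
    have hw2 : w ∈ ({x, o, q} : Finset A) := by
      rw [eqn]; exact Finset.mem_filter.2 ⟨(adj_R apw).2, apw⟩
    simp only [Finset.mem_insert, Finset.mem_singleton] at hw2
    have hwR' := (mem_R d).1 hwR
    rcases hw2 with hw2 | hw2 | hw2
    · exact absurd hw2 hwx
    · exact absurd hw2 hwR'.2.2.2
    · rw [hw2]
      refine (mem' d f).2 (Or.inr ⟨hqx, ?_, ?_, hq.2.1, hq.2.2⟩)
      · rintro rfl; exact ny de tb nb hq.2.2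
      · rintro rfl; exact nz de tb nb hq.2.2
  refine ⟨?_, ?_, ?_, ?_, ?_, ?_, ?_, ?_⟩
  · -- bl3
    intro v hv
    have hv' := (mem_R d).1 hv
    show (if v = x then ({b1, b2, de} : Finset B) else S.bl v).card = 3
    by_cases hx : v = x
    · rw [if_pos hx, Finset.card_insert_of_notMem, Finset.card_insert_of_notMem, Finset.card_singleton]
      · simpa using f.n2d.symm
      · simpa using ⟨f.n12, f.n1d.symm⟩
    · rw [if_neg hx]; exact h.bl3 v hv'.1
  · -- pt3
    intro b
    exact (card_le d f b).trans (h.pt3 b)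
  · -- tokd
    intro v b b' hv hv' hb hb'
    obtain ⟨tb, nb⟩ := tokS hb
    obtain ⟨tb', nb'⟩ := tokS hb'
    rcases (mem' d f).1 hv with ⟨h1, h2⟩ | h1
    · rcases (mem' d f).1 hv' with ⟨h3, h4⟩ | h3
      · rw [tob b tb h2, tob b' tb' h4]
      · exact absurd h1 h3.1
    · rcases (mem' d f).1 hv' with ⟨h3, h4⟩ | h3
      · exact absurd h3 h1.1
      · exact h.tokd v b b' h1.2.2.2.2 h3.2.2.2.2 tb tb'
  · -- deg4
    intro v hv
    have hv' := (mem_R d).1 hv
    by_cases hx : v = x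
    · rw [hx]; exact (deg_x d f).trans (h.deg4 o d.oR)
    · exact (deg_le d f hx hv).trans (h.deg4 v hv'.1)
  · -- deg3
    intro v hv hd
    have hv' := (mem_R d).1 hv
    by_cases hx : v = x
    · subst hx
      obtain ⟨b, c1, c2, c3, c4⟩ := h.deg3 o d.oR (lt_of_lt_of_le hd (deg_x d f))
      have := no b c2 c1
      subst this
      refine ⟨b, hxd, (tok_iff d f).2 ⟨c2, f.nTd⟩, ?_, ?_⟩
      · intro u hu hD
        rcases (mem_D d).1 hD with h1 | h1
        · rcases (mem' d f).1 hu with h2 | h2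
          · exact h1.1 h2.1
          · exact c3 u h2.2.2.2.2 h1.2
        · exact c3 o c1 h1.2
      · intro u hu hux
        rcases (mem' d f).1 hu with h2 | h2
        · exact absurd h2.1 hux
        · exact (deg_le d f hux (mem_pt.1 hu).1).trans (c4 u h2.2.2.2.2 h2.2.2.2.1)
    · obtain ⟨b, c1, c2, c3, c4⟩ := h.deg3 v hv'.1 (lt_of_lt_of_le hd (deg_le d f hx hv))
      have nb : b ≠ T := by
        rintro rfl
        rw [d.hT] at c1
        simp only [Finset.mem_insert, Finset.mem_singleton] at c1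
        tauto
      refine ⟨b, (mem' d f).2 (Or.inr ⟨hx, hv'.2.1, hv'.2.2.1, hv'.2.2.2, c1⟩), (tok_iff d f).2 ⟨c2, nb⟩, ?_, ?_⟩
      · intro u hu hD
        rcases (mem' d f).1 hu with h2 | h2
        · have := tob b c2 h2.2
          subst this
          rcases (mem_D d).1 hD with h1 | h1
          · exact h1.1 h2.1
          · exact c3 o hod h1.2
        · rcases (mem_D d).1 hD with h1 | h1
          · exact c3 u h2.2.2.2.2 h1.2
          · exact h2.1 h1.1
      · intro u hu huv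
        rcases (mem' d f).1 hu with h2 | h2
        · have := tob b c2 h2.2
          subst this
          rw [h2.1]
          exact (deg_x d f).trans (c4 o hod (Ne.symm hv'.2.2.2))
        · exact (deg_le d f h2.1 (mem_pt.1 hu).1).trans (c4 u h2.2.2.2.2 huv)
  · -- drop2
    intro b hb u hu hD
    obtain ⟨tb, nb⟩ := tokS hb
    rcases (mem' d f).1 hu with h2 | h2
    · have := tob b tb h2.2
      subst this
      have hoD : o ∈ S.D := by
        rcases (mem_D d).1 hD with h1 | h1
        · exact absurd h2.1 h1.1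
        · exact h1.2
      obtain ⟨v, hv, hne, hvD⟩ := h.drop2 b tb o hod hoD
      have hvx : v ≠ x := by rintro rfl; exact nx b tb nb hv
      have hvy : v ≠ y := by rintro rfl; exact ny b tb nb hv
      have hvz : v ≠ z := by rintro rfl; exact nz b tb nb hv
      exact ⟨v, (mem' d f).2 (Or.inr ⟨hvx, hvy, hvz, hne, hv⟩), by rw [h2.1]; exact hvx,
        (mem_D d).2 (Or.inl ⟨hvx, hvD⟩)⟩
    · have huD : u ∈ S.D := by
        rcases (mem_D d).1 hD with h1 | h1
        · exact h1.2
        · exact absurd h1.1 h2.1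
      obtain ⟨v, hv, hne, hvD⟩ := h.drop2 b tb u h2.2.2.2.2 huD
      by_cases hvo : v = o
      · subst hvo
        have := no b tb hv
        subst this
        exact ⟨x, hxd, h2.1.symm, (mem_D d).2 (Or.inr ⟨rfl, hvD⟩)⟩
      · have hvx : v ≠ x := by rintro rfl; exact nx b tb nb hv
        have hvy : v ≠ y := by rintro rfl; exact ny b tb nb hv
        have hvz : v ≠ z := by rintro rfl; exact nz b tb nb hv
        exact ⟨v, (mem' d f).2 (Or.inr ⟨hvx, hvy, hvz, hvo, hv⟩), hne, (mem_D d).2 (Or.inl ⟨hvx, hvD⟩)⟩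
  · -- e1
    intro b hb hu y1 hy1 z1 hz1 hne hgg y' z' hy' hz' ay az
    obtain ⟨g, hg, hgy, hgz⟩ := hgg
    obtain ⟨tb, nb⟩ := tokS hb
    have hU := und b hb hu
    have hy1R := (mem_pt.1 hy1).1
    have hz1R := (mem_pt.1 hz1).1
    have hyR' := (adj_R ay).2
    have hzR' := (adj_R az).2
    by_cases hbd : b = de
    · subst hbd
      by_cases h1 : y1 = x
      · subst h1
        exact absurd (inner hb hu z1 hz1 hne.symm g hg hgy hgz z' az) hz'
      · by_cases h2 : z1 = x
        · subst h2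
          exact absurd (inner hb hu y1 hy1 h1 g hg hgz hgy y' ay) hy'
        · have hyx : y' ≠ x := by rintro rfl; exact hy' hxd
          have hzx : z' ≠ x := by rintro rfl; exact hz' hxd
          have k1 : ∀ w, w ∈ (S.con x y z o b1 b2 b).R → w ∉ (S.con x y z o b1 b2 b).pt b → w ∉ S.pt b := by
            intro w hw hw' hw2
            have hwR := (mem_R d).1 hw
            have hwx : w ≠ x := by rintro rfl; exact hw' hxd
            exact hw' ((mem' d f).2 (Or.inr ⟨hwx, hwR.2.1, hwR.2.2.1, hwR.2.2.2, hw2⟩))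
          have k2 : ∀ w c, w ≠ x → w ∈ (S.con x y z o b1 b2 b).pt c → w ∈ S.pt c := by
            intro w c hw hw'
            rcases (mem' d f).1 hw' with h3 | h3
            · exact absurd h3.1 hw
            · exact h3.2.2.2.2
          have := h.e1 b tb hU y1 (k2 _ _ h1 hy1) z1 (k2 _ _ h2 hz1) hne ⟨g, hg, k2 _ _ h1 hgy, k2 _ _ h2 hgz⟩
            y' z' (k1 _ hyR' hy') (k1 _ hzR' hz') ((adj_ne d f h1 hyx hy1R hyR').1 ay)
            ((adj_ne d f h2 hzx hz1R hzR').1 az)
          exact (deg_le d f hyx hyR').trans this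
    · have hb2 : ¬ (b = T ∨ b = be ∨ b = be' ∨ b = ga ∨ b = ga') := by
        rintro (rfl | rfl | rfl | rfl | rfl)
        · exact nb rfl
        · exact f.tbe tb
        · exact f.tbe' tb
        · exact f.tga tb
        · exact f.tga' tb
      have hpt := pt_ne d f hb2 hbd
      rw [hpt] at hy1 hz1 hy' hz'
      have h1 : y1 ≠ x := by rintro rfl; exact nx b tb nb hy1
      have h2 : z1 ≠ x := by rintro rfl; exact nx b tb nb hz1
      have hob : o ∉ S.pt b := fun h3 => hbd (no b tb h3)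
      have hxb : x ∉ S.pt b := nx b tb nb
      have k2 : ∀ w c, w ≠ x → w ∈ (S.con x y z o b1 b2 de).pt c → w ∈ S.pt c := by
        intro w c hw hw'
        rcases (mem' d f).1 hw' with h3 | h3
        · exact absurd h3.1 hw
        · exact h3.2.2.2.2
      obtain ⟨z0, hz0, az0⟩ : ∃ z0, z0 ∉ S.pt b ∧ S.adj z1 z0 := by
        by_cases hzx : z' = x
        · subst hzx
          rcases (adj_x d f h2 hz1R).1 (adj_symm az) with h3 | h3
          · exact ⟨z', hxb, adj_symm h3⟩
          · exact ⟨o, hob, adj_symm h3⟩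
        · exact ⟨z', hz', (adj_ne d f h2 hzx hz1R hzR').1 az⟩
      have key : ∀ y0, y0 ∉ S.pt b → S.adj y1 y0 → S.deg y0 ≤ 3 := by
        intro y0 hy0 ay0
        exact h.e1 b tb hU y1 hy1 z1 hz1 hne ⟨g, hg, k2 _ _ h1 hgy, k2 _ _ h2 hgz⟩ y0 z0 hy0 hz0 ay0 az0
      by_cases hyx : y' = x
      · subst hyx
        rcases (adj_x d f h1 hy1R).1 (adj_symm ay) with h3 | h3
        · have := key y' hxb (adj_symm h3)
          have := d.hdeg
          omega
        · exact (deg_x d f).trans (key o hob (adj_symm h3))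
      · exact (deg_le d f hyx hyR').trans (key y' hy' ((adj_ne d f h1 hyx hy1R hyR').1 ay))
  · -- e2
    intro b hb hu y1 hy1 z1 hz1 hne hgg w hw ay az x1 hx1 n1 n2
    obtain ⟨g, hg, hgy, hgz⟩ := hgg
    obtain ⟨tb, nb⟩ := tokS hb
    have hU := und b hb hu
    have hy1R := (mem_pt.1 hy1).1
    have hz1R := (mem_pt.1 hz1).1
    have hx1R := (mem_pt.1 hx1).1
    have hwR := (adj_R ay).2
    by_cases hbd : b = de
    · subst hbd
      by_cases h1 : y1 = x
      · subst h1
        exact absurd (inner hb hu z1 hz1 hne.symm g hg hgy hgz w az) hw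
      · by_cases h2 : z1 = x
        · subst h2
          exact absurd (inner hb hu y1 hy1 h1 g hg hgz hgy w ay) hw
        · exfalso
          have hwx : w ≠ x := by rintro rfl; exact hw hxd
          have hwR' := (mem_R d).1 hwR
          have hw' : w ∉ S.pt b := fun hw2 =>
            hw ((mem' d f).2 (Or.inr ⟨hwx, hwR'.2.1, hwR'.2.2.1, hwR'.2.2.2, hw2⟩))
          have k2 : ∀ w c, w ≠ x → w ∈ (S.con x y z o b1 b2 b).pt c → w ∈ S.pt c := by
            intro w c hw hw'
            rcases (mem' d f).1 hw' with h3 | h3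
            · exact absurd h3.1 hw
            · exact h3.2.2.2.2
          have k3 : ∀ w, w ≠ x → w ∈ (S.con x y z o b1 b2 b).pt b → o ≠ w := by
            intro w hw hw'
            rcases (mem' d f).1 hw' with h3 | h3
            · exact absurd h3.1 hw
            · exact h3.2.2.2.1.symm
          have := h.e2 b tb hU y1 (k2 _ _ h1 hy1) z1 (k2 _ _ h2 hz1) hne ⟨g, hg, k2 _ _ h1 hgy, k2 _ _ h2 hgz⟩
            w hw' ((adj_ne d f h1 hwx hy1R hwR).1 ay) ((adj_ne d f h2 hwx hz1R hwR).1 az) o hod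
            (k3 _ h1 hy1) (k3 _ h2 hz1)
          have hO := degO hb hu
          omega
    · have hb2 : ¬ (b = T ∨ b = be ∨ b = be' ∨ b = ga ∨ b = ga') := by
        rintro (rfl | rfl | rfl | rfl | rfl)
        · exact nb rfl
        · exact f.tbe tb
        · exact f.tbe' tb
        · exact f.tga tb
        · exact f.tga' tb
      have hpt := pt_ne d f hb2 hbd
      rw [hpt] at hy1 hz1 hw hx1
      have h1 : y1 ≠ x := by rintro rfl; exact nx b tb nb hy1
      have h2 : z1 ≠ x := by rintro rfl; exact nx b tb nb hz1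
      have h3 : x1 ≠ x := by rintro rfl; exact nx b tb nb hx1
      have hob : o ∉ S.pt b := fun h3 => hbd (no b tb h3)
      have hxb : x ∉ S.pt b := nx b tb nb
      have k2 : ∀ w c, w ≠ x → w ∈ (S.con x y z o b1 b2 de).pt c → w ∈ S.pt c := by
        intro w c hw hw'
        rcases (mem' d f).1 hw' with h3 | h3
        · exact absurd h3.1 hw
        · exact h3.2.2.2.2
      by_cases hwx : w = x
      · exfalso
        subst hwx
        have q1 := (adj_x d f h1 hy1R).1 (adj_symm ay)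
        have q2 := (adj_x d f h2 hz1R).1 (adj_symm az)
        have e1y : ∀ y0 z0, y0 ∉ S.pt b → z0 ∉ S.pt b → S.adj y1 y0 → S.adj z1 z0 → S.deg y0 ≤ 3 :=
          fun y0 z0 a1 a2 a3 a4 => h.e1 b tb hU y1 hy1 z1 hz1 hne ⟨g, hg, k2 _ _ h1 hgy, k2 _ _ h2 hgz⟩
            y0 z0 a1 a2 a3 a4
        have e1z : ∀ y0 z0, y0 ∉ S.pt b → z0 ∉ S.pt b → S.adj z1 y0 → S.adj y1 z0 → S.deg y0 ≤ 3 :=
          fun y0 z0 a1 a2 a3 a4 => h.e1 b tb hU z1 hz1 y1 hy1 hne.symm ⟨g, hg, k2 _ _ h2 hgz, k2 _ _ h1 hgy⟩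
            y0 z0 a1 a2 a3 a4
        obtain ⟨y0, hy0, ay0⟩ : ∃ y0, y0 ∉ S.pt b ∧ S.adj y1 y0 := by
          rcases q1 with q | q
          · exact ⟨w, hxb, adj_symm q⟩
          · exact ⟨o, hob, adj_symm q⟩
        obtain ⟨z0, hz0, az0⟩ : ∃ z0, z0 ∉ S.pt b ∧ S.adj z1 z0 := by
          rcases q2 with q | q
          · exact ⟨w, hxb, adj_symm q⟩
          · exact ⟨o, hob, adj_symm q⟩
        have hd4 := d.hdeg
        rcases q1 with q1 | q1
        · have := e1y w z0 hxb hz0 (adj_symm q1) az0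
          omega
        rcases q2 with q2 | q2
        · have := e1z w y0 hxb hy0 (adj_symm q2) ay0
          omega
        have inde : ∀ v ∈ S.pt b, S.adj o v → v ∈ S.pt de := by
          intro v hv hov
          obtain ⟨m1, c, m2, m3, m4⟩ := hov
          rcases (f.hom c).1 m2 with rfl | rfl | rfl
          · exfalso
            rw [d.hbe] at m3
            simp only [Finset.mem_insert, Finset.mem_singleton] at m3
            rcases m3 with rfl | rfl
            · exact ny b tb nb hv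
            · exact hob hv
          · exfalso
            rw [d.hga] at m3
            simp only [Finset.mem_insert, Finset.mem_singleton] at m3
            rcases m3 with rfl | rfl
            · exact nz b tb nb hv
            · exact hob hv
          · exact m3
        have m1 := inde y1 hy1 q1
        have m2 := inde z1 hz1 q2
        have c3 : ({o, y1, z1} : Finset A).card = 3 := by
          rw [Finset.card_insert_of_notMem, Finset.card_insert_of_notMem, Finset.card_singleton]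
          · simpa using hne
          · simpa using ⟨q1.1, q2.1⟩
        have sub : ({o, y1, z1} : Finset A) ⊆ S.pt de := by
          intro v hv
          simp only [Finset.mem_insert, Finset.mem_singleton] at hv
          rcases hv with rfl | rfl | rfl
          · exact hod
          · exact m1
          · exact m2
        have c4 := Finset.card_le_card sub
        have c5 := h.pt3 de
        have td : S.Tok de := by
          show (S.pt de).card = 3
          omega
        exact hbd (h.tokd y1 b de hy1 m1 tb td)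
      · have q := h.e2 b tb hU y1 hy1 z1 hz1 hne ⟨g, hg, k2 _ _ h1 hgy, k2 _ _ h2 hgz⟩
          w hw ((adj_ne d f h1 hwx hy1R hwR).1 ay) ((adj_ne d f h2 hwx hz1R hwR).1 az) x1 hx1 n1 n2
        exact ⟨(deg_le d f h3 hx1R).trans q.1, fun q2 => q.2 ((adj_ne d f h3 hwx hx1R hwR).1 q2)⟩

end Pool.Agent.Helper51.Inj
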